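import Pool.Agent.Helper330.DPK.Coh

/-!
# A coherent Aronszajn tree

The nodes of level `α` are the functions `t : ω₁ → ℕ`, considered below `α`, which differ from the
coherent finite-to-one function `cg α` only finitely many times below `α`.  (First part copied from
`Pool.Agent.X212.Roth.Tree`.)
-/

set_option autoImplicit false

open Set Function

namespace Pool.Agent.X214.Aron

open Pool.Agent.Helper330.DPK.Coh

theorem not_countable_univ : ¬ (Set.univ : Set W).Countable := by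
  intro h
  have h1 : Countable W := Set.countable_univ_iff.1 h
  have h2 := Cardinal.mk_le_aleph0 (α := W)
  rw [Cardinal.mk_toType, Cardinal.card_ord] at h2
  exact absurd h2 (not_le.2 Cardinal.aleph0_lt_aleph_one)

theorem exists_bound {S : Set W} (hS : S.Countable) : ∃ b : W, ∀ s ∈ S, s < b := by
  by_contra hcon
  push Not at hcon
  apply not_countable_univ
  have : (Set.univ : Set W) ⊆ ⋃ s ∈ S, Set.Iic s := by
    intro x _
    obtain ⟨s, hs, hx⟩ := hcon x
    exact Set.mem_biUnion hs hx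
  exact (hS.biUnion (fun s _ => countable_Iic s)).mono this

/-- the successor -/
noncomputable def sc (γ : W) : W := (wellFounded_lt (α := W)).min {x | γ < x} (exists_gt γ)

theorem lt_sc (γ : W) : γ < sc γ := (wellFounded_lt (α := W)).min_mem {x | γ < x} (exists_gt γ)

theorem sc_le {γ x : W} (h : γ < x) : sc γ ≤ x :=
  not_lt.1 ((wellFounded_lt (α := W)).not_lt_min {x | γ < x} (x := x) h)

theorem lt_sc_iff {x γ : W} : x < sc γ ↔ x ≤ γ := by
  constructor
  · intro h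
    by_contra hc
    exact absurd h (not_lt.2 (sc_le (not_le.1 hc)))
  · exact fun h => h.trans_lt (lt_sc γ)

/-- `t` is a node of level `α` -/
def Nd (α : W) (t : W → ℕ) : Prop := {ξ | ξ < α ∧ t ξ ≠ cg α ξ}.Finite

/-- agreement below `α` -/
def Ag (α : W) (s t : W → ℕ) : Prop := ∀ ξ < α, s ξ = t ξ

theorem Ag.refl (α : W) (s : W → ℕ) : Ag α s s := fun _ _ => rfl

theorem Ag.symm {α : W} {s t : W → ℕ} (h : Ag α s t) : Ag α t s := fun ξ hξ => (h ξ hξ).symm

theorem Ag.trans {α : W} {s t u : W → ℕ} (h : Ag α s t) (h' : Ag α t u) : Ag α s u :=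
  fun ξ hξ => (h ξ hξ).trans (h' ξ hξ)

theorem Ag.mono {α β : W} {s t : W → ℕ} (h : Ag α s t) (hle : β ≤ α) : Ag β s t :=
  fun ξ hξ => h ξ (hξ.trans_le hle)

theorem Nd.congr {α : W} {s t : W → ℕ} (h : Nd α s) (hst : Ag α s t) : Nd α t := by
  refine h.subset ?_
  rintro ξ ⟨h1, h2⟩
  exact ⟨h1, by rw [hst ξ h1]; exact h2⟩

theorem Nd.mono {α β : W} {t : W → ℕ} (h : Nd α t) (hle : β ≤ α) : Nd β t := by
  refine (h.union (cg_coh β α)).subset ?_
  rintro ξ ⟨h1, h2⟩
  by_cases h3 : t ξ = cg α ξ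
  · right
    exact ⟨h1, h1.trans_le hle, fun h4 => h2 (h3.trans h4.symm)⟩
  · left
    exact ⟨h1.trans_le hle, h3⟩

theorem nd_cg (α : W) : Nd α (cg α) := by
  have : {ξ | ξ < α ∧ cg α ξ ≠ cg α ξ} = ∅ := by
    ext ξ
    simp
  rw [Nd, this]
  exact Set.finite_empty

theorem Nd.update_sc {γ : W} {t : W → ℕ} (h : Nd γ t) (k : ℕ) : Nd (sc γ) (update t γ k) := by
  classical
  refine ((h.union (cg_coh γ (sc γ))).union (Set.finite_singleton γ)).subset ?_
  rintro ξ ⟨h1, h2⟩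
  rcases (lt_sc_iff.1 h1).eq_or_lt with rfl | h3
  · right
    rfl
  · left
    rw [update_of_ne h3.ne] at h2
    by_cases h4 : t ξ = cg γ ξ
    · right
      exact ⟨h3, h1, fun h5 => h2 (h4.trans h5)⟩
    · left
      exact ⟨h3, h4⟩

theorem reps (α : W) : ∃ S : Set (W → ℕ), S.Countable ∧ (∀ s ∈ S, Nd α s) ∧
    ∀ t, Nd α t → ∃ s ∈ S, Ag α s t := by
  classical
  have hc : Countable (Set.Iio α) := (countable_Iio α).to_subtype
  let f : Finset (Set.Iio α × ℕ) → (W → ℕ) := fun E ξ =>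
    if h : ∃ p ∈ E, p.1.1 = ξ then h.choose.2 else cg α ξ
  refine ⟨Set.range f, Set.countable_range f, ?_, ?_⟩
  · rintro _ ⟨E, rfl⟩
    refine (E.finite_toSet.image (fun p => p.1.1)).subset ?_
    rintro ξ ⟨h1, h2⟩
    by_contra hc
    apply h2
    have : ¬ ∃ p ∈ E, p.1.1 = ξ := by
      rintro ⟨p, hp, hpξ⟩
      exact hc ⟨p, hp, hpξ⟩
    show (if h : ∃ p ∈ E, p.1.1 = ξ then h.choose.2 else cg α ξ) = _
    rw [dif_neg this]
  · intro t ht
    have hfin : {p : Set.Iio α × ℕ | t p.1.1 ≠ cg α p.1.1 ∧ p.2 = t p.1.1}.Finite := by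
      refine Set.Finite.of_finite_image (f := fun p : Set.Iio α × ℕ => p.1.1) (ht.subset ?_) ?_
      · rintro _ ⟨p, ⟨hp1, hp2⟩, rfl⟩
        exact ⟨p.1.2, hp1⟩
      · rintro p ⟨hp1, hp2⟩ q ⟨hq1, hq2⟩ hpq
        have h1 : p.1 = q.1 := Subtype.ext hpq
        exact Prod.ext h1 (by rw [hp2, hq2, h1])
    refine ⟨f hfin.toFinset, ⟨_, rfl⟩, ?_⟩
    intro ξ hξ
    show (if h : ∃ p ∈ hfin.toFinset, p.1.1 = ξ then h.choose.2 else cg α ξ) = _
    split_ifs with h
    · have h1 := h.choose_spec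
      have h2 := (Set.Finite.mem_toFinset hfin).1 h1.1
      rw [h2.2, h1.2]
    · by_contra hc
      exact h ⟨⟨⟨ξ, hξ⟩, t ξ⟩, (Set.Finite.mem_toFinset hfin).2 ⟨fun h3 => hc h3.symm, rfl⟩, rfl⟩

theorem no_branch (g : W → ℕ) : ¬ ∀ α, Nd α g := by
  intro h
  -- some fibre is infinite
  obtain ⟨m, hm⟩ : ∃ m, {ξ | g ξ = m}.Infinite := by
    by_contra hcon
    push Not at hcon
    apply not_countable_univ
    have : (Set.univ : Set W) ⊆ ⋃ m, {ξ | g ξ = m} := fun ξ _ => Set.mem_iUnion.2 ⟨g ξ, rfl⟩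
    exact (Set.countable_iUnion (fun m => (hcon m).countable)).mono this
  obtain ⟨S, hS1, hS2⟩ : ∃ S ⊆ {ξ | g ξ = m}, S.Infinite ∧ S.Countable := by
    let e := hm.natEmbedding
    refine ⟨Set.range (fun n => (e n).1), ?_, ?_, Set.countable_range _⟩
    · rintro _ ⟨n, rfl⟩
      exact (e n).2
    · exact Set.infinite_range_of_injective (Subtype.val_injective.comp e.injective)
  obtain ⟨b, hb⟩ := exists_bound hS2.2
  apply hS2.1
  refine ((h b).union (cg_fin b m)).subset ?_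
  intro ξ hξ
  have h1 : g ξ = m := hS1 hξ
  by_cases h2 : g ξ = cg b ξ
  · right
    exact ⟨hb ξ hξ, by rw [← h2, h1]⟩
  · left
    exact ⟨hb ξ hξ, h2⟩

/-! ### Nodes as a type -/

/-- A node: a level and a function supported below the level. -/
@[ext]
structure Nod : Type where
  lv : W
  f : W → ℕ
  nd : Nd lv f
  z : ∀ ξ, lv ≤ ξ → f ξ = 0

theorem Nod.ext' {s t : Nod} (h : s.lv = t.lv) (hf : Ag s.lv s.f t.f) : s = t := by
  apply Nod.ext h
  funext ξ
  by_cases hξ : ξ < s.lv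
  · exact hf ξ hξ
  · rw [s.z ξ (not_lt.1 hξ), t.z ξ (h ▸ not_lt.1 hξ)]

open Classical in
/-- The restriction of a function to a level, as a node. -/
noncomputable def mk (α : W) (t : W → ℕ) (h : Nd α t) : Nod where
  lv := α
  f := fun ξ => if ξ < α then t ξ else 0
  nd := h.congr (fun ξ hξ => by simp [hξ])
  z := fun ξ hξ => by simp [not_lt.2 hξ]

theorem mk_ag (α : W) (t : W → ℕ) (h : Nd α t) : Ag α (mk α t h).f t := by
  intro ξ hξ
  simp [mk, hξ]

/-- Truncation of a node to a level. -/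
noncomputable def trunc (α : W) (t : Nod) : Nod :=
  if h : α ≤ t.lv then mk α t.f (t.nd.mono h) else t

theorem trunc_lv {α : W} {t : Nod} (h : α ≤ t.lv) : (trunc α t).lv = α := by
  simp [trunc, h, mk]

theorem trunc_ag {α : W} {t : Nod} (h : α ≤ t.lv) : Ag α (trunc α t).f t.f := by
  rw [trunc, dif_pos h]
  exact mk_ag _ _ _

theorem trunc_of_le {α : W} {t : Nod} (h : t.lv ≤ α) : trunc α t = t := by
  by_cases h2 : α ≤ t.lv
  · have h3 : α = t.lv := le_antisymm h2 h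
    apply Nod.ext'
    · rw [trunc_lv h2, h3]
    · rw [trunc_lv h2]
      exact trunc_ag h2
  · rw [trunc, dif_neg h2]

theorem trunc_lv_le (α : W) (t : Nod) : (trunc α t).lv ≤ α := by
  by_cases h : α ≤ t.lv
  · rw [trunc_lv h]
  · rw [trunc, dif_neg h]
    exact (not_le.1 h).le

theorem level_countable (α : W) : {t : Nod | t.lv = α}.Countable := by
  classical
  obtain ⟨S, hS, hS1, hS2⟩ := reps α
  have h : {t : Nod | t.lv = α} ⊆ ⋃ s : S, {mk α s.1 (hS1 _ s.2)} := by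
    rintro t rfl
    obtain ⟨s, hs, hst⟩ := hS2 t.f t.nd
    refine Set.mem_iUnion.2 ⟨⟨s, hs⟩, ?_⟩
    rw [Set.mem_singleton_iff]
    apply Nod.ext' (s := t) (t := mk t.lv s (hS1 _ hs)) rfl
    exact ((mk_ag t.lv s (hS1 _ hs)).trans hst).symm
  have : Countable S := hS.to_subtype
  exact (Set.countable_iUnion (fun _ => Set.countable_singleton _)).mono h

theorem levels_countable (α : W) : {t : Nod | t.lv ≤ α}.Countable := by
  have h : {t : Nod | t.lv ≤ α} ⊆ ⋃ β ∈ Set.Iic α, {t : Nod | t.lv = β} := by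
    intro t ht
    exact Set.mem_biUnion (x := t.lv) ht rfl
  exact ((countable_Iic α).biUnion (fun β _ => level_countable β)).mono h

instance (α : W) : Countable {t : Nod // t.lv ≤ α} := (levels_countable α).to_subtype

theorem nod_uncountable : ¬ (Set.univ : Set Nod).Countable := by
  intro h
  apply not_countable_univ
  have h2 := h.image Nod.lv
  refine h2.mono ?_
  intro α _
  exact ⟨mk α (cg α) (nd_cg α), Set.mem_univ _, rfl⟩

/-- `t` is an initial segment of `s`. -/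
def Le (t s : Nod) : Prop := t.lv ≤ s.lv ∧ Ag t.lv t.f s.f

/-- The level is a limit. -/
def Lim (α : W) : Prop := (∃ β, β < α) ∧ ∀ β < α, sc β < α

theorem not_lim_sc (α : W) : ¬ Lim (sc α) := fun h => lt_irrefl _ (h.2 α (lt_sc α))

/-- **Baumgartner's lemma.**  In an unbounded family of finite sequences of nodes of the same
level, there are two sequences of different level with no comparable entries in the same place. -/
theorem baum (m : ℕ) (S : Set (W × (Fin m → Nod))) (hS : ∀ p ∈ S, ∀ i, (p.2 i).lv = p.1)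
    (hcomp : ∀ p ∈ S, ∀ q ∈ S, p.1 < q.1 → ∃ i, Le (p.2 i) (q.2 i)) :
    ∃ K : W, ∀ p ∈ S, p.1 < K := by
  classical
  by_contra hcon
  push Not at hcon
  choose p hpS hp using hcon
  let D : Ultrafilter W := Ultrafilter.of Filter.atTop
  have hD : (D : Filter W) ≤ Filter.atTop := Ultrafilter.of_le _
  have h1 : ∀ γ, ∀ᶠ β in (D : Filter W), ∃ i, Le ((p γ).2 i) ((p β).2 i) := by
    intro γ
    apply hD
    filter_upwards [Filter.eventually_ge_atTop (sc (p γ).1)] with β hβ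
    exact hcomp _ (hpS γ) _ (hpS β) ((lt_sc _).trans_le (hβ.trans (hp β)))
  have h2 : ∀ γ, ∃ i, ∀ᶠ β in (D : Filter W), Le ((p γ).2 i) ((p β).2 i) := by
    intro γ
    exact Ultrafilter.eventually_exists_iff.1 (h1 γ)
  choose i hi using h2
  have h3 : ∃ i0, ∀ᶠ γ in (D : Filter W), i γ = i0 := by
    apply Ultrafilter.eventually_exists_iff.1
    exact Filter.Eventually.of_forall (fun γ => ⟨i γ, rfl⟩)
  obtain ⟨i0, hi0⟩ := h3
  have h4 : ∀ ξ : W, ∃ γ, ξ ≤ γ ∧ i γ = i0 := by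
    intro ξ
    have h5 : ∀ᶠ γ in (D : Filter W), ξ ≤ γ := hD (Filter.eventually_ge_atTop ξ)
    obtain ⟨γ, h6, h7⟩ := (h5.and hi0).exists
    exact ⟨γ, h6, h7⟩
  choose γ hγ hγi using h4
  have hlv : ∀ ξ, ξ ≤ ((p (γ ξ)).2 i0).lv := by
    intro ξ
    rw [hS _ (hpS _)]
    exact (hγ ξ).trans (hp _)
  have hag : ∀ ξ η, ∀ ζ, ζ < ((p (γ ξ)).2 i0).lv → ζ < ((p (γ η)).2 i0).lv →
      ((p (γ ξ)).2 i0).f ζ = ((p (γ η)).2 i0).f ζ := by
    intro ξ η ζ h5 h6
    have h7 := hi (γ ξ)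
    have h8 := hi (γ η)
    rw [hγi] at h7 h8
    obtain ⟨β, h9, h10⟩ := (h7.and h8).exists
    rw [h9.2 ζ h5, h10.2 ζ h6]
  apply no_branch (fun ξ => ((p (γ (sc ξ))).2 i0).f ξ)
  intro α
  refine (((p (γ α)).2 i0).nd.mono (hlv α)).congr ?_
  intro ξ hξ
  exact hag α (sc ξ) ξ (hξ.trans_le (hlv α)) ((lt_sc ξ).trans_le (hlv _))

end Pool.Agent.X214.Aron
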